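import Pool.Agent.H2.NF.S3

/-!
# NF: IZV, `IZ p` is a discrete valuation ring
-/

set_option autoImplicit false

namespace Pool.NF

open Pool.T1 Pool.AVS

namespace IzvAux

variable {p : ℕ}

theorem not_dvd_iff (hp : p.Prime) (x : ℚ) : x ∈ IZ p ↔ ((x.den : ℕ) : ZMod p) ≠ 0 := by
  rw [IZ, Set.mem_ofPred_eq, Ne, ZMod.natCast_eq_zero_iff]

theorem mem_of (hp : p.Prime) {x : ℚ} {a b : ℤ} (hb : ¬ (p : ℤ) ∣ b) (h : x * b = a) :
    x ∈ IZ p := by
  have hb0 : (b : ℚ) ≠ 0 := by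
    intro h0
    apply hb
    have : b = 0 := by exact_mod_cast h0
    rw [this]
    exact dvd_zero _
  have hx : x = Rat.divInt a b := by
    rw [Rat.divInt_eq_div, eq_div_iff hb0, h]
  show ¬ p ∣ x.den
  intro hd
  apply hb
  have h1 : ((p : ℕ) : ℤ) ∣ (x.den : ℤ) := Int.natCast_dvd_natCast.2 hd
  rw [hx] at h1
  exact h1.trans (Rat.den_dvd a b)

theorem den_ne {x : ℚ} (hx : x ∈ IZ p) : ¬ (p : ℤ) ∣ ((x.den : ℕ) : ℤ) := by
  intro h
  exact hx (Int.natCast_dvd_natCast.1 h)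

theorem mul_den (x : ℚ) : x * ((x.den : ℤ) : ℚ) = (x.num : ℚ) := by
  rw [Int.cast_natCast]
  exact Rat.mul_den_eq_num x

theorem rz_eq (hp : p.Prime) {x : ℚ} {a b : ℤ} (hx : x ∈ IZ p) (hb : ¬ (p : ℤ) ∣ b)
    (h : x * b = a) : rz p x * (b : ZMod p) = (a : ZMod p) := by
  have := Fact.mk hp
  have h1 : (x.num : ℤ) * b = a * (x.den : ℤ) := by
    have h2 : ((x.num : ℤ) : ℚ) * b = a * ((x.den : ℤ) : ℚ) := by
      rw [← mul_den x, ← h]
      ring
    exact_mod_cast h2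
  have h3 : ((x.num : ℤ) : ZMod p) * (b : ZMod p) = (a : ZMod p) * ((x.den : ℕ) : ZMod p) := by
    have h4 := congrArg (fun z : ℤ => (z : ZMod p)) h1
    push_cast at h4
    exact h4
  have h5 : ((x.den : ℕ) : ZMod p) ≠ 0 := (not_dvd_iff hp x).1 hx
  rw [rz, mul_right_comm, h3, mul_assoc, mul_inv_cancel₀ h5, mul_one]

theorem b_ne (hp : p.Prime) {b : ℤ} (hb : ¬ (p : ℤ) ∣ b) : (b : ZMod p) ≠ 0 := by
  rw [Ne, ZMod.intCast_zmod_eq_zero_iff_dvd]
  exact hb

theorem prime_mul (hp : p.Prime) {a b : ℤ} (ha : ¬ (p : ℤ) ∣ a) (hb : ¬ (p : ℤ) ∣ b) :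
    ¬ (p : ℤ) ∣ a * b := by
  intro h
  rcases (Nat.prime_iff_prime_int.1 hp).dvd_or_dvd h with h | h
  · exact ha h
  · exact hb h

/-- The valuation ring. -/
def OZ (p : ℕ) (hp : p.Prime) : ValuationSubring ℚ where
  carrier := IZ p
  mul_mem' := by
    intro x y hx hy
    refine mem_of hp (a := x.num * y.num) (b := (x.den : ℤ) * (y.den : ℤ))
      (prime_mul hp (den_ne hx) (den_ne hy)) ?_
    push_cast
    rw [← Rat.mul_den_eq_num x, ← Rat.mul_den_eq_num y]
    ring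
  one_mem' := by
    refine mem_of hp (a := 1) (b := 1) ?_ (by simp)
    intro h
    exact hp.one_lt.ne' (by exact_mod_cast Int.eq_one_of_dvd_one (by positivity) h)
  add_mem' := by
    intro x y hx hy
    refine mem_of hp (a := x.num * y.den + y.num * x.den) (b := (x.den : ℤ) * (y.den : ℤ))
      (prime_mul hp (den_ne hx) (den_ne hy)) ?_
    push_cast
    rw [← Rat.mul_den_eq_num x, ← Rat.mul_den_eq_num y]
    ring
  zero_mem' := by
    refine mem_of hp (a := 0) (b := 1) ?_ (by simp)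
    intro h
    exact hp.one_lt.ne' (by exact_mod_cast Int.eq_one_of_dvd_one (by positivity) h)
  neg_mem' := by
    intro x hx
    refine mem_of hp (a := -x.num) (b := (x.den : ℤ)) (den_ne hx) ?_
    rw [neg_mul, mul_den]
    push_cast
    rfl
  mem_or_inv_mem' := by
    intro x
    by_cases hx : x ∈ IZ p
    · exact Or.inl hx
    · right
      have h1 : p ∣ x.den := not_not.1 hx
      have h2 : ¬ (p : ℤ) ∣ x.num := by
        intro h
        have h3 : p ∣ x.num.natAbs := Int.natCast_dvd.1 h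
        have h4 := Nat.dvd_gcd h3 h1
        rw [x.reduced] at h4
        exact hp.one_lt.ne' (Nat.dvd_one.1 h4)
      have h0 : x ≠ 0 := by
        rintro rfl
        exact h2 (by simp)
      refine mem_of hp (a := (x.den : ℤ)) (b := x.num) h2 ?_
      rw [← mul_den x, ← mul_assoc, inv_mul_cancel₀ h0, one_mul]

theorem mem_OZ (hp : p.Prime) (x : ℚ) : x ∈ OZ p hp ↔ x ∈ IZ p := Iff.rfl

theorem rz_zero_iff (hp : p.Prime) {x : ℚ} (hx : x ∈ IZ p) : rz p x = 0 ↔ (p : ℤ) ∣ x.num := by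
  have := Fact.mk hp
  have h5 : ((x.den : ℕ) : ZMod p) ≠ 0 := (not_dvd_iff hp x).1 hx
  rw [rz, mul_eq_zero_iff_right (inv_ne_zero h5), ZMod.intCast_zmod_eq_zero_iff_dvd]

theorem div_mem_iff (hp : p.Prime) {x : ℚ} (hx : x ∈ IZ p) : x / p ∈ IZ p ↔ (p : ℤ) ∣ x.num := by
  have hp0 : (p : ℚ) ≠ 0 := by exact_mod_cast hp.ne_zero
  constructor
  · intro h
    have h1 : (x / p) * (((x / p : ℚ).den : ℤ) : ℚ) = ((x / p : ℚ).num : ℚ) := mul_den _
    have h2 : (x.num : ℤ) * ((x / p : ℚ).den : ℤ) = (p : ℤ) * (x / p : ℚ).num * (x.den : ℤ) := by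
      have h3 : ((x.num : ℤ) : ℚ) * (((x / p : ℚ).den : ℤ) : ℚ) =
          ((p : ℤ) : ℚ) * ((x / p : ℚ).num : ℚ) * ((x.den : ℤ) : ℚ) := by
        rw [← h1, ← mul_den x, Int.cast_natCast p]
        field_simp
      exact_mod_cast h3
    have h4 : (p : ℤ) ∣ (x.num : ℤ) * ((x / p : ℚ).den : ℤ) := by
      rw [h2, mul_assoc]
      exact dvd_mul_right _ _
    exact ((Nat.prime_iff_prime_int.1 hp).dvd_or_dvd h4).resolve_right (den_ne h)
  · rintro ⟨c, hc⟩
    refine mem_of hp (a := c) (b := (x.den : ℤ)) (den_ne hx) ?_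
    rw [div_mul_eq_mul_div, mul_den, hc]
    push_cast
    field_simp

theorem mem_of_val (hp : p.Prime) {x : ℚ} (h : 0 ≤ padicValRat p x) : x ∈ IZ p := by
  have := Fact.mk hp
  show ¬ p ∣ x.den
  intro hd
  have h2 : ¬ (p : ℤ) ∣ x.num := by
    intro h
    have h3 : p ∣ x.num.natAbs := Int.natCast_dvd.1 h
    have h4 := Nat.dvd_gcd h3 hd
    rw [x.reduced] at h4
    exact hp.one_lt.ne' (Nat.dvd_one.1 h4)
  have h5 : padicValInt p x.num = 0 := padicValInt.eq_zero_of_not_dvd h2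
  have h6 : 0 < padicValNat p x.den := Nat.pos_of_ne_zero
    (dvd_iff_padicValNat_ne_zero (x.den_nz) |>.1 hd)
  rw [padicValRat_def, h5] at h
  omega

end IzvAux

open IzvAux in
/-- **IZV**. -/
theorem izv : IZVStmt := by
  intro p hp
  have := Fact.mk hp
  have hp0 : (p : ℚ) ≠ 0 := by exact_mod_cast hp.ne_zero
  have h1p : ¬ (p : ℤ) ∣ 1 := by
    intro h
    exact hp.one_lt.ne' (by exact_mod_cast Int.eq_one_of_dvd_one (by positivity) h)
  have hpm : (p : ℚ) ∈ IZ p := mem_of hp (a := p) (b := 1) h1p (by simp)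
  refine ⟨OZ p hp, rfl, ⟨hp0, hpm, ?_, ?_⟩, ?_, ?_, ?_, ?_, ?_⟩
  · intro h
    have h1 : ((p : ℚ)⁻¹) ∈ IZ p := h
    have h2 : (1 : ℚ) / p ∈ IZ p := by rw [one_div]; exact h1
    rw [div_mem_iff hp (mem_of hp (a := 1) (b := 1) h1p (by simp))] at h2
    exact h1p (by simpa using h2)
  · intro z hz hz'
    show z / p ∈ IZ p
    rw [div_mem_iff hp hz]
    by_contra h
    apply hz'
    by_cases h0 : z = 0
    · rw [h0, inv_zero]
      exact zero_mem _
    refine mem_of hp (a := (z.den : ℤ)) (b := z.num) h ?_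
    rw [← mul_den z, ← mul_assoc, inv_mul_cancel₀ h0, one_mul]
  · intro x hx
    have hv : padicValRat p (x / (p : ℚ) ^ padicValRat p x) = 0 := by
      rw [padicValRat.div hx (zpow_ne_zero _ hp0), padicValRat.zpow, padicValRat.self hp.one_lt]
      ring
    have hx' : x / (p : ℚ) ^ padicValRat p x ≠ 0 := div_ne_zero hx (zpow_ne_zero _ hp0)
    refine ⟨hx', mem_of_val hp hv.ge, mem_of_val hp ?_⟩
    rw [padicValRat.inv, hv]
    simp
  · intro x hx
    rw [rz_zero_iff hp hx, div_mem_iff hp hx]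
  · intro x hx y hy
    have hd := prime_mul hp (den_ne hx) (den_ne hy)
    have hdn : (((x.den : ℤ) * (y.den : ℤ) : ℤ) : ZMod p) ≠ 0 := b_ne hp hd
    have hX : rz p x * ((x.den : ℤ) : ZMod p) = (x.num : ZMod p) := rz_eq hp hx (den_ne hx) (mul_den x)
    have hY : rz p y * ((y.den : ℤ) : ZMod p) = (y.num : ZMod p) := rz_eq hp hy (den_ne hy) (mul_den y)
    refine ⟨?_, ?_⟩
    · have h1 := rz_eq hp (x := x + y) (a := x.num * y.den + y.num * x.den)
        (b := (x.den : ℤ) * (y.den : ℤ)) ((OZ p hp).add_mem _ _ hx hy) hd (by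
          push_cast
          rw [← Rat.mul_den_eq_num x, ← Rat.mul_den_eq_num y]
          ring)
      apply mul_right_cancel₀ hdn
      rw [h1]
      push_cast at hX hY ⊢
      rw [← hX, ← hY]
      ring
    · have h1 := rz_eq hp (x := x * y) (a := x.num * y.num)
        (b := (x.den : ℤ) * (y.den : ℤ)) ((OZ p hp).mul_mem _ _ hx hy) hd (by
          push_cast
          rw [← Rat.mul_den_eq_num x, ← Rat.mul_den_eq_num y]
          ring)
      apply mul_right_cancel₀ hdn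
      rw [h1]
      push_cast at hX hY ⊢
      rw [← hX, ← hY]
      ring
  · simp [rz]
  · intro z
    obtain ⟨x, hx⟩ := ZMod.intCast_surjective z
    refine ⟨x, ?_⟩
    simp [rz, hx]

end Pool.NF
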