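import Pool.Agent.H66.NF.U
import Pool.Agent.H70.HYP.NMU

/-!
# NF, row WVL: the classes of divisors have square norm and are a group
-/

set_option autoImplicit false

namespace Pool.NF

open Polynomial Matrix NumberField IsDedekindDomain Pool.HYP Pool.TOW Pool.AVS Pool.T1 Pool.PRK

/-- WVL. -/
theorem wvl : WVLStmt := by
  intro hR hM L _ f hf hn hirr
  have : Fact (Irreducible f) := ⟨hirr⟩
  refine ⟨?_, ?_, ?_⟩
  · rintro ξ ⟨u, p, hξ, hp, hl⟩
    refine ⟨u, hξ, ?_⟩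
    have hN : ∀ (a : L[X]) (s : L[X]) (y : L), y ≠ 0 → f ∣ a - p * s ^ 2 →
        Algebra.norm L (AdjoinRoot.mk f a) = y ^ 2 →
        IsSquare (Algebra.norm L (u : AdjoinRoot f)) := by
      intro a s y hy hd ha
      have h1 : AdjoinRoot.mk f a = (u : AdjoinRoot f) * AdjoinRoot.mk f s ^ 2 := by
        rw [AdjoinRoot.mk_eq_mk.2 hd, map_mul, map_pow, hp]
      rw [h1, map_mul, map_pow] at ha
      have h2 : Algebra.norm L (AdjoinRoot.mk f s) ≠ 0 := by
        intro h0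
        rw [h0, zero_pow two_ne_zero, mul_zero] at ha
        exact hy (pow_eq_zero_iff two_ne_zero |>.1 ha.symm)
      refine ⟨y / Algebra.norm L (AdjoinRoot.mk f s), ?_⟩
      field_simp
      exact ha
    rcases hR L f p hf hn hirr hl with ⟨s, hs⟩ | ⟨x, y, s, hy, hy0, hs⟩
    · exact hN 1 s 1 one_ne_zero hs (by rw [map_one, map_one, one_pow])
    · exact hN (C x - X) s y hy0 hs (by rw [HYP.NMU.norm_sub f hf, hy])
  · refine ⟨1, 1, rfl, by rw [map_one, Units.val_one], 1, 0, 1, monic_one, isCoprime_one_left,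
      one_dvd _, ?_⟩
    rw [natDegree_one, pow_zero]
    simp
  · rintro ξ ⟨u, p, hξ, hp, hl⟩ η ⟨v, q, hη, hq, hl'⟩
    refine ⟨u * v, p * q, ?_, by rw [map_mul, hp, hq, Units.val_mul],
      hM L f p q hf hn hirr hl hl'⟩
    rw [← hξ, ← hη, ← QuotientGroup.mk_inv, ← QuotientGroup.mk_mul, QuotientGroup.eq]
    refine ⟨v⁻¹, ?_⟩
    show v⁻¹ ^ 2 = (u * v)⁻¹ * (u * v⁻¹)
    rw [mul_inv, mul_mul_mul_comm, inv_mul_cancel, one_mul, sq]

end Pool.NF
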